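import Pool.Agent.H72.VTA.Tw
import Pool.Agent.H83.VA.Ta
import Pool.Agent.H71.XR.Xf
import Pool.Agent.H71.XR.Xk

/-!
# A thin place steeper than the last one over slope-one places: the parts of `KP 4`

`vtF_thin`, `tA3_of`, `sh1_tA`: the parts with full rate, from `TwaStmt`.
-/

set_option autoImplicit false

namespace Pool.VTA72

open Pool.GEN Pool.PKG Pool.ALT Pool.LA91 Pool.V0F Pool.PN18 Pool.ASM Pool.VA83

/-- The class theorem. -/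
theorem ta72 : TaStmt := ta_of Pool.XR71.xrow Pool.XR71.xnlD

/-- The property of the windows. -/
abbrev QA : PropG 4 ((ℕ × ℕ × ℚ × ℚ) ⊕ (ℕ ⊕ ((AltUI ⊕ Unit) ⊕ BaX))) :=
  sumQ FaQ (sumQ NlaQ (sumQ (sumQ AltR CuQ) (BaQ 4)))

theorem her_qa : HerQ QA :=
  her_sum (her_fa 4) (her_sum (her_nla 4) (her_sum (her_sum (her_altR 4) (her_cu 4)) (her_ba 4)))

theorem aePG_qa : AePG 4 QA :=
  aePG_sum (aePG_fa _) (her_fa _) (aePG_sum (t_nla _) (her_nla _)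
    (aePG_sum (aePG_sum (aePG_altR 4) (her_altR 4) (aePG_cu 4)) (her_sum (her_altR 4) (her_cu 4))
      (aePG_ba 4)))

/-- **No record**, dimension four. -/
theorem void_a4 (hTW : TwaStmt) {h : ℝ} (h0 : 0 < h) (h1 : h ≤ 1) {Sl : ℕ → ℝ} {κ : ℕ → Kg}
    (s0 : Sl 0 = 1) (s1 : Sl 1 = 1) (k0 : κ 0 = .one) (k1 : κ 1 = .one) (k2 : κ 2 = .thin)
    (s3 : 1 ≤ Sl 3) (s2 : Sl 3 < Sl 2) : VoidZ 4 h Sl κ QA (ZfR 2 Sl) := by
  refine void_a (k := 2) ta72 hTW (by norm_num) h0 h1 (fun l hl => ?_) (fun l hl => ?_) k2 s3 s2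
  · obtain rfl | rfl : l = 0 ∨ l = 1 := by omega
    · exact s0
    · exact s1
  · obtain rfl | rfl : l = 0 ∨ l = 1 := by omega
    · exact k0
    · exact k1

theorem zfR_adm (Sl : ℕ → ℝ) : (ZfR 2 Sl : PropZ 4 (PosR × ℕ)) =
    fun b => FulR (AdmL 4) (Sl 3 * Real.log 2) b.1 b.2 := by
  show (fun b : PosR × ℕ => FulR (AdmN 2) (Sl 3 * Real.log 2) b.1 b.2) = _
  rw [admN_eq]

/-- **The thin place 2 steeper than the target**, full rate. -/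
theorem vtF_thin (hTW : TwaStmt) : Pool.VT83.VtF .thin := by
  refine ⟨_, inferInstance, QA, aePG_qa, her_qa, fun h h0 h1 Sl κ hS hK => ?_⟩
  obtain ⟨k2, s0, s1, s3, s2⟩ := hS
  exact void_a4 hTW h0 h1 s0 s1 ((hK.one 0 (by omega)).2 s0) ((hK.one 1 (by omega)).2 s1) k2 s3.le
    s2

theorem partV_of (hTW : TwaStmt) {k : Kg} {Φ : (ℕ → ℝ) → Prop}
    (hΦ : ∀ Sl, Φ Sl → Sl 0 = 1 ∧ Sl 1 = 1 ∧ 1 ≤ Sl 3 ∧ Sl 3 < Sl 2) :
    PartV (kg4 .one .one .thin k) Φ (fun _ => AdmL 4) (fun Sl => Sl 3 * Real.log 2) := by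
  refine ⟨_, inferInstance, QA, aePG_qa, her_qa, fun h h0 h1 Sl hS => ?_⟩
  obtain ⟨s0, s1, s3, s2⟩ := hΦ Sl hS
  have H := void_a4 (κ := kg4 .one .one .thin k) hTW h0 h1 s0 s1 rfl rfl rfl s3 s2
  rw [zfR_adm] at H
  exact H

/-- **The static target**, the place 2 thin and steeper. -/
theorem tA3_of (hTW : TwaStmt) : PartV (kg4 .one .one .thin .sta)
    (fun Sl => NAt Sl ∧ Sl 3 < Sl 2) (fun _ => AdmL 4) (fun Sl => Sl 3 * Real.log 2) :=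
  partV_of hTW fun _ h => ⟨h.1.1, h.1.2.1, by linarith [h.1.2.2.2], h.2⟩

/-- **The target of slope one**, the place 2 thin. -/
theorem sh1_tA (hTW : TwaStmt) : PartV (kg4 .one .one .thin .one) N1t (fun _ => AdmL 4)
    (fun Sl => Sl 3 * Real.log 2) :=
  partV_of hTW fun _ h => ⟨h.1, h.2.1, h.2.2.2.ge, by rw [h.2.2.2]; exact h.2.2.1⟩

end Pool.VTA72
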