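import Pool.Agent.H76.ST.Corea
import Pool.Agent.H76.ST.Bxr
import Pool.Agent.H6.FA.Rec
import Pool.Agent.H71.XR.Xm
import Pool.Agent.H72.T4T.Sub

/-!
# A steep place and a flatter last place over slope-one places: the inputs of the record

`TwR`: the tie of a record in a subclass. Subclasses.
-/

set_option autoImplicit false

namespace Pool.VTA72

open Finset Real MvPolynomial
open Pool.Agent.H49.Ent Pool.Agent.H32.Dense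
open Pool.STK hiding pr2
open Pool.KA Pool.KSAT Pool.K2S Pool.PB Pool.GEN
open Pool.S6C Pool.RCD Pool.LA91 Pool.OWN68 Pool.CHT Pool.PKG Pool.ALT Pool.PN18
open Pool.XR71 Pool.VA83 Pool.V0B19
open Pool.V0F Pool.V0T
open Pool.V0R (LadR)

/-- **(TW)** The tie of a record with the box and the full rate of the last place, in a nonempty
subclass. Order of the constants: `D` (labels of the class); `D'` (degree of the labels of both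
places); `ξ`, `δ` (from the class theorem); `τ` (the early window), the pairs of windows of the
record; `S₂` (the constant of the pairs); `lz` (the parameter of `Z`); `T` (far digits), `Λ₀` (the
room), `φ` (closeness of the labels), `e` (the errors), all in units `q`; the windows `V₂`, the radius
and the error of the record. -/
def TwR (k : ℕ) (h lam0 : ℝ) (Sl : ℕ → ℝ) (κ : ℕ → Kg) {ι Λt : Type} (Q : PropG (k + 2) ι)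
    (Z : PropZ (k + 2) Λt) : Prop :=
  ∀ (D S₀ : ℕ) (al K₀ : ℝ), 1 ≤ D → 1 ≤ S₀ → 0 < al → 0 < K₀ → ∃ D' : ℕ, D ≤ D' ∧
  ∀ ξ δ : ℝ, 0 < ξ → ξ ≤ 1 → Sl (k + 1) / Sl k * (1 + ξ) ≤ 1 → 0 < δ →
  ∃ (τ : ℕ) (K₁ : ℝ) (N₁ : ℕ) (A₁ V₁ : ℕ → ℝ), 1 ≤ K₁ ∧
  (∀ j < N₁, -K₁ ≤ V₁ j ∧ V₁ j ≤ A₁ j ∧ A₁ j ≤ K₁) ∧
  ∀ S₂ : ℕ, S₀ ≤ S₂ → ∃ (lz : Λt) (T₀ : ℝ), ∀ T : ℝ, T₀ ≤ T → ∃ Λ₀ : ℝ, 1 ≤ Λ₀ ∧ ∀ φ : ℝ, 0 < φ →
  ∃ e : ℝ, 0 < e ∧ ∃ (K₂ : ℝ) (N₂ : ℕ) (V₂ : ℕ → ℝ), (∀ j < N₂, -K₂ ≤ V₂ j ∧ V₂ j ≤ K₂) ∧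
  ∀ K' : ℝ, K₂ ≤ K' → ∃ ε₀ : ℝ, 0 < ε₀ ∧ ∀ ε : ℝ, 0 < ε → ε ≤ ε₀ →
  ∀ (S : PCl (k + 2)) (g₀ : ℝ → ℝ) (P : List (Fin (k + 2)) × Fin (k + 2) → ℝ → ℝ → ℝ)
    (θ : ℝ) (P₂ : ℕ → List (Fin (k + 2)) × Fin (k + 2) → ℝ → ℝ → ℝ) (θ₂ Eb e₂ : ℕ → ℝ)
    (c : ℕ → Fin (k + 2)) (Pt : ℝ → ℝ → ℝ) (rt : ℝ → ℝ) (L Tb : ℕ → ℝ → ℝ → ℝ) (G : Set ℝ)
    (g : ℝ), IsClosed G → g ∈ G → (∀ l < k + 2, HasDerivAt (fun x => L l x x) (Sl l) g) →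
    Z lz S P θ c Pt rt L Tb κ G g →
    ∃ (p : ℕ → ι) (M : ℕ) (B₀ B₁ : ℕ → ℝ),
    (∀ j < M, B₀ j < B₁ j) ∧ ∀ k₀ : ℕ → ℕ, (∀ j < M, Q (p j) (k₀ j) S P θ c Pt rt L Tb κ G g) →
    ∃ q₁ : ℝ, 0 < q₁ ∧ ∀ {N : ℕ} {A V : ℕ → ℝ} {N' : ℕ} {V' : ℕ → ℝ} {q t : ℝ} {x : ℕ → ℝ}
      {M₀ cb co : ℕ} {sp : ℕ → ℝ → ℝ} {Λ e' φ' : ℝ} {lam : ℝ → ℝ},
      q < q₁ → (∀ j < M, x j ∈ G ∧ t + B₀ j * q ≤ x j ∧ x j ≤ t + B₁ j * q ∧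
        Q (p j) (k₀ j) S P θ c Pt rt L Tb κ G (x j)) →
      RecG S al g₀ P θ P₂ θ₂ Eb e₂ c Pt rt h K₀ g L Tb Sl κ G S₀ N A V S₂ N' V' K' ε q t →
      (∀ i < N₁, ∃ j < N, A j = A₁ i ∧ V j = V₁ i) → (∀ i < N₂, ∃ j < N', V' j = V₂ i) →
      1 ≤ M₀ → τ ≤ cb → Λ₀ ≤ Λ → 0 ≤ e' → e' ≤ e → φ' ≤ e →
      XBox S c k (fun l v => L l v v) sp (grS M₀ cb co t q) (Sl k) (Sl (k + 1)) h
        (t - cb * q) (t + co * q) t q Λ (φ' * q) e' lam →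
      t ≤ L k t t → Ful S ((range (k + 1)).image c) t (L k t t) → ∀ e₀ ρ₀ : ℝ, 0 ≤ e₀ →
      (∃ rk E : ℝ, 0 ≤ rk ∧ rk + q ≤ ρ₀ ∧ 0 ≤ E ∧ E + q ≤ e₀ ∧
        AttG S ((range (k + 1)).image c) (c (k + 1)) t (L (k + 1) t t) rk E) →
      L k t t + q ≤ e₀ + L (k + 1) t t → L k t t + q ≤ ρ₀ → e₀ + L (k + 1) t t + q ≤ 1 → ρ₀ < 1 →
      FulB S c k (Sl (k + 1)) t q Λ e' lam D' e₀ ρ₀ (L (k + 1) t t - φ * q) →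
      ∃ S' : PCl (k + 2), S'.Ne ∧
        (∀ (τ : ℝ) (J : ℕ) (F : Fam (k + 2) J) (A : F.Ω → Prop),
          S'.St τ J F A → S.St τ J F A) ∧
        TieWA S' c k D D' (fun l v => L l v v) (grS M₀ cb co t q) τ (Sl k) (Sl (k + 1)) ξ lam0
          (t - cb * q) t q Λ T δ (φ * q) (φ' * q) D' e₀ ρ₀

section

variable {m : ℕ} {S S' : PCl m}

/-- The ladder in a subclass. -/
theorem ladR_sub (hs : ∀ (τ : ℝ) (J : ℕ) (F : Fam m J) (A : F.Ω → Prop),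
    S'.St τ J F A → S.St τ J F A) {c : ℕ → Fin m} {k f : ℕ} {sn : ℕ → ℝ → ℝ} {G : Set ℝ}
    {b o φ : ℝ} (h : LadR S c k f sn G b o φ) : LadR S' c k f sn G b o φ where
  tm := by
    obtain ⟨C₀, h1⟩ := h.tm
    exact ⟨C₀, fun τ J F A a b => h1 τ J F A a (hs τ J F A b)⟩
  pos := fun τ J F A a => h.pos τ J F A (hs τ J F A a)
  inj := h.inj
  ch := h.ch.sub hs
  att := fun w hw => by
    obtain ⟨rk, E, h1, h2, h3, h4, h5⟩ := h.att w hw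
    refine ⟨rk, E, h1, h2, h3, h4, fun e he => ?_⟩
    obtain ⟨K, h6⟩ := h5 e he
    exact ⟨K, h6.sub hs⟩
  bG := h.bG
  oG := h.oG
  b0 := h.b0
  bo := h.bo
  o1 := h.o1
  φ0 := h.φ0
  fm := h.fm
  fl := h.fl
  st := h.st
  eq := h.eq

/-- **The box in a subclass.** -/
theorem xbox_sub (hs : ∀ (τ : ℝ) (J : ℕ) (F : Fam m J) (A : F.Ω → Prop),
    S'.St τ J F A → S.St τ J F A) {c : ℕ → Fin m} {k : ℕ} {sn sp : ℕ → ℝ → ℝ} {G : Set ℝ}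
    {al be hr b o w u Λ φ e : ℝ} {lam : ℝ → ℝ}
    (h : XBox S c k sn sp G al be hr b o w u Λ φ e lam) :
    XBox S' c k sn sp G al be hr b o w u Λ φ e lam where
  lad := ⟨ladR_sub hs h.lad.toLadR, h.lad.le⟩
  img := h.img
  be1 := h.be1
  bal := h.bal
  u0 := h.u0
  wG := h.wG
  bw := h.bw
  wo := h.wo
  o1 := h.o1
  b0 := h.b0
  room := h.room
  lin0 := h.lin0
  lin1 := h.lin1
  lamt := h.lamt
  row := fun P₁ P₂ h1 h2 h3 x hx hx' => (h.row P₁ P₂ h1 h2 h3 x hx hx').sub hs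
  att := by
    obtain ⟨rk, E, h1, h2, h3, h4⟩ := h.att
    refine ⟨rk, E, h1, h2, fun e he => ?_, h4⟩
    obtain ⟨K, h5⟩ := h3 e he
    exact ⟨K, h5.sub hs⟩
  spb := h.spb
  free := fun P w₁ x' h1 h2 h3 h4 h5 h6 => by
    obtain ⟨k₂, h7, e₀, h8, h9⟩ := h.free P w₁ x' h1 h2 h3 h4 h5 h6
    exact ⟨k₂, h7, e₀, h8, fun K => (h9 K).sub hs⟩
  nla := fun w₁ v y h1 h2 h3 h4 => by
    obtain ⟨κ₁, h5, h6⟩ := h.nla w₁ v y h1 h2 h3 h4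
    exact ⟨κ₁, h5, h6.sub hs⟩
  rn := fun w₁ => by
    obtain ⟨η, h1⟩ := h.rn w₁
    exact ⟨η, h1.sub hs⟩

theorem attG_sub (hs : ∀ (τ : ℝ) (J : ℕ) (F : Fam m J) (A : F.Ω → Prop),
    S'.St τ J F A → S.St τ J F A) {K : Finset (Fin m)} {i : Fin m} {w p rk E : ℝ}
    (h : AttG S K i w p rk E) : AttG S' K i w p rk E := fun e he => by
  obtain ⟨D, h5⟩ := h e he
  exact ⟨D, h5.sub hs⟩

theorem fulB_sub (hs : ∀ (τ : ℝ) (J : ℕ) (F : Fam m J) (A : F.Ω → Prop),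
    S'.St τ J F A → S.St τ J F A) {c : ℕ → Fin m} {k K₀ : ℕ} {be w u Λ e e₀ ρ₀ π₁ : ℝ}
    {lam : ℝ → ℝ} (h : FulB S c k be w u Λ e lam K₀ e₀ ρ₀ π₁) :
    FulB S' c k be w u Λ e lam K₀ e₀ ρ₀ π₁ :=
  fun a y h1 h2 h3 => (h a y h1 h2 h3).sub hs

/-- A smaller room, a larger error. -/
theorem fulB_mono {c : ℕ → Fin m} {k K₀ : ℕ} {be w u Λ Λ' e e' e₀ ρ₀ π₁ : ℝ}
    {lam : ℝ → ℝ} (h : FulB S c k be w u Λ e lam K₀ e₀ ρ₀ π₁) (hu : 0 ≤ u) (hΛ : Λ' ≤ Λ)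
    (he : e ≤ e') : FulB S c k be w u Λ' e' lam K₀ e₀ ρ₀ π₁ := by
  intro a y h1 h2 h3
  have h4 := mul_le_mul_of_nonneg_right hΛ hu
  have h5 := mul_le_mul_of_nonneg_right he hu
  refine Bas.mono 0 (h a y h1 h2 (by linarith)) ?_
  rintro J - F A h6 V z z' g h7 C zc zc' h8
  refine le_trans ?_ (h6 V z z' g h7 C zc zc' h8)
  exact mul_le_mul_of_nonneg_right (by linarith) (Nat.cast_nonneg J)

end

end Pool.VTA72
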