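import Pool.Agent.H72.VTA.Void
import Pool.Agent.H18.PN.Fda
import Pool.Agent.H83.VT.Sheet
import Pool.Agent.H6.ASM.V0a

/-!
# A steep place and a flatter last place over slope-one places: the parts

`twR_of`: the tie of the record from `TwaStmt`. `void_a`: no record of full rate. `vtF_thin`,
`tA3_of`, `sh1_tA`: the parts of `KP 4` with a thin steep place.
-/

set_option autoImplicit false

namespace Pool.VTA72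

open Finset Real MvPolynomial
open Pool.Agent.H49.Ent Pool.Agent.H32.Dense
open Pool.STK hiding pr2
open Pool.KA Pool.KSAT Pool.K2S Pool.PB Pool.GEN
open Pool.S6C Pool.RCD Pool.LA91 Pool.OWN68 Pool.CHT Pool.PKG Pool.ALT Pool.PN18
open Pool.XR71 Pool.VA83 Pool.V0B19 Pool.V0F Pool.V0T Pool.FA6

/-- **The tie of the record** from far-dead and the full rate. -/
theorem twR_of {k : ℕ} {h lam0 : ℝ} {Sl : ℕ → ℝ} {κ : ℕ → Kg} (hTW : TwaStmt) (hk : 1 ≤ k)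
    (hh0 : 0 < h) (hh1 : h ≤ 1) (hκ1 : ∀ l < k, κ l = .one) (hs1 : 1 ≤ Sl (k + 1))
    (hs : Sl (k + 1) < Sl k) (hl0 : 0 < lam0) (hl1 : lam0 ≤ Sl (k + 1) / Sl k)
    (hl2 : ∀ i : ℕ, (i : ℝ) < Sl (k + 1) → lam0 ≤ Sl (k + 1) - i) :
    TwR k h lam0 Sl κ (BaQ (k + 2)) (ZfR k Sl) := by
  intro D S₀ al K₀ hD hS₀ hal hK₀
  obtain ⟨D', K, hDD', hW⟩ := hTW k (Sl k) (Sl (k + 1)) h lam0 hk hs1 hs hh0 hh1 hl0 hl1 hl2 D hD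
  refine ⟨D', hDD', fun ξ δ hξ hξ1 hξb hδ => ?_⟩
  obtain ⟨C, δ₁, hδ₁, hW⟩ := hW ξ hξ hξ1 hξb δ hδ
  obtain ⟨τ₀, K₁, N₁, A₁, V₁, hK₁, hAV, hF⟩ := farA_rec
    (fds_ba hk hh0 hh1 hκ1 (by linarith) (by linarith) hs) K C al hal K₀ hK₀ S₀ hS₀
  obtain ⟨T₁, hW⟩ := hW (max τ₀ 1) (le_max_right _ _)
  refine ⟨max τ₀ 1, K₁, N₁, A₁, V₁, hK₁, hAV, fun S₂ hS₂ => ?_⟩
  obtain ⟨lz, T₂, hT₂, hF⟩ := hF (max τ₀ 1) (le_max_left _ _) S₂ hS₂ δ₁ hδ₁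
  refine ⟨lz, max T₁ T₂, fun T hT => ?_⟩
  obtain ⟨Λ₀, hΛ₀, hW⟩ := hW T ((le_max_left _ _).trans hT)
  obtain ⟨K₂, N₂, V₂, hV₂, hF⟩ := hF T ((le_max_right _ _).trans hT)
  refine ⟨Λ₀, hΛ₀, fun φ hφ => ?_⟩
  obtain ⟨e, he, hW⟩ := hW φ hφ
  have hk0 : (0 : ℝ) ≤ k := Nat.cast_nonneg _
  have hk11 : (0 : ℝ) < 11 * (k + 1) := by positivity
  refine ⟨min e (1 / (11 * (k + 1))), lt_min he (by positivity), K₂, N₂, V₂, hV₂,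
    fun K' hK' => ?_⟩
  obtain ⟨ε₀, hε₀, hF⟩ := hF K' hK'
  refine ⟨ε₀, hε₀, fun ε hε hεε S g₀ P θ P₂ θ₂ Eb e₂ c Pt rt L Tb G g hG hgG hL hZ => ?_⟩
  obtain ⟨p, M, B₀, B₁, hB, hF⟩ := hF ε hε hεε S g₀ P θ P₂ θ₂ Eb e₂ c Pt rt L Tb G g hG hgG hL hZ
  refine ⟨p, M, B₀, B₁, hB, fun k₀ hk₀ => ?_⟩
  obtain ⟨q₁, hq₁, hF⟩ := hF k₀ hk₀
  refine ⟨q₁, hq₁, ?_⟩
  intro N A V N' V' q t x M₀ cb co sp Λ e' φ' lam hq hx R hA hV hM hcb hΛ he0 he' hφ' hbox htL hFul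
    e₀ ρ₀ he₀ hatt h1 h2 h3 h4 hfulB
  obtain ⟨S', hne, hs', hF⟩ := hF q t x hq hx N A V N' V' R hA hV
  have hq0 := R.q0
  have hcb0 : (0 : ℝ) ≤ cb := Nat.cast_nonneg _
  have hco0 : (0 : ℝ) ≤ co := Nat.cast_nonneg _
  have hcbq : 0 ≤ cb * q := by positivity
  have hcoq : 0 ≤ co * q := by positivity
  have hφ1 : φ' * q ≤ e * q :=
    mul_le_mul_of_nonneg_right (hφ'.trans (min_le_left _ _)) hq0.le
  have hφ2 : 11 * ((k : ℝ) + 1) * (φ' * q) ≤ q := by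
    have h5 := hφ'.trans (min_le_right _ _)
    rw [le_div_iff₀ hk11] at h5
    have h6 := mul_le_mul_of_nonneg_right h5 hq0.le
    linarith
  have hfar := hF 1 (grS M₀ cb co t q) (t - cb * q) (t + co * q) (φ' * q)
    (ladR_sub hs' hbox.lad.toLadR) hbox.wG (by linarith) (by linarith) hφ2
  refine ⟨S', hne, hs', hW hΛ hφ1 he0 (he'.trans (min_le_left _ _)) (xbox_sub hs' hbox) hfar htL
    (hFul.sub hs') e₀ ρ₀ he₀ ?_ h1 h2 h3 h4 (fulB_sub hs' hfulB)⟩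
  obtain ⟨rk, E, b1, b2, b3, b4, b5⟩ := hatt
  exact ⟨rk, E, b1, b2, b3, b4, attG_sub hs' b5⟩

/-- The near digits of the last place. -/
theorem lam0_ex {al be : ℝ} (hbe : 1 ≤ be) (hba : be < al) : ∃ lam0 : ℝ, 0 < lam0 ∧
    lam0 ≤ be / al ∧ ∀ i : ℕ, (i : ℝ) < be → lam0 ≤ be - i := by
  have hal : 0 < al := by linarith
  have hc : (1 : ℝ) ≤ ⌈be⌉₊ := hbe.trans (Nat.le_ceil _)
  have hc1 : 1 ≤ ⌈be⌉₊ := by exact_mod_cast hc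
  have hlt : ((⌈be⌉₊ - 1 : ℕ) : ℝ) < be := by
    have h1 : ⌈be⌉₊ - 1 < ⌈be⌉₊ := by omega
    exact Nat.lt_ceil.1 h1
  refine ⟨min (be / al) (be - (⌈be⌉₊ - 1 : ℕ)), lt_min (by positivity) (by linarith),
    min_le_left _ _, fun i hi => (min_le_right _ _).trans ?_⟩
  have h1 : i < ⌈be⌉₊ := Nat.lt_ceil.2 hi
  have h2 : (i : ℝ) ≤ (⌈be⌉₊ - 1 : ℕ) := by
    have : i ≤ ⌈be⌉₊ - 1 := by omega
    exact_mod_cast this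
  linarith

/-- **No record of full rate** with a thin place `k` steeper than the last one, over slope-one
places. -/
theorem void_a {k : ℕ} {h : ℝ} {Sl : ℕ → ℝ} {κ : ℕ → Kg} (hTA : TaStmt) (hTW : TwaStmt)
    (hk : 1 ≤ k) (hh0 : 0 < h) (hh1 : h ≤ 1) (hSl : ∀ l < k, Sl l = 1)
    (hκ1 : ∀ l < k, κ l = .one) (hκt : κ k = .thin) (hs1 : 1 ≤ Sl (k + 1))
    (hs : Sl (k + 1) < Sl k) :
    VoidZ (k + 2) h Sl κ (sumQ FaQ (sumQ NlaQ (sumQ (sumQ AltR CuQ) (BaQ (k + 2))))) (ZfR k Sl) := by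
  obtain ⟨lam0, hl0, hl1, hl2⟩ := lam0_ex hs1 hs
  exact void_ta hTA (twR_of hTW hk hh0 hh1 hκ1 hs1 hs hl0 hl1 hl2) hk hh0 hh1 hSl hκ1 hκt hs1 hs
    hl0 hl1

end Pool.VTA72
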