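import Pool.Agent.H72.VTA.S
import Pool.Agent.H72.T4C.VoidF

/-!
# A steep place and a flatter last place over slope-one places: no record

`void_ta`: no record of full rate for the slopes one below the place `k`, from the class theorem
`TaStmt` and the tie `TwR` of the record.
-/

set_option autoImplicit false

namespace Pool.VTA72

open Finset Real MvPolynomial
open Pool.Agent.H49.Ent Pool.Agent.H32.Dense
open Pool.STK hiding pr2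
open Pool.KA Pool.KSAT Pool.K2S Pool.PB Pool.GEN
open Pool.S6C Pool.RCD Pool.LA91 Pool.OWN68 Pool.CHT Pool.PKG Pool.ALT Pool.PN18
open Pool.XR71 Pool.VA83 Pool.V0B19 Pool.V0F Pool.V0T Pool.ST76
open Pool.T4C72 (mgF winbAt_ex WinbAt nat_pos winb_c)

/-- A larger constant. -/
theorem winbAt_mono {m r S₀ D Dr : ℕ} {CB CB' : ℝ} (h : WinbAt m r S₀ D Dr CB) (hC : CB ≤ CB') :
    WinbAt m r S₀ D Dr CB' := by
  intro S P θ c Pt a Eb ηm o η σ r₀ N M h1 h2 h3 h4 h5 h6 h7 h8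
  obtain ⟨K₁, b, hK₁, H⟩ := h N M h1 h2 h3 h4 h5 h6 h7 h8
  have hη : 0 ≤ ηm := by
    obtain ⟨-, a1, a2, -, -⟩ := h8 0 (Nat.zero_le N)
    linarith
  refine ⟨K₁, b, hK₁, fun κ hκ => Bas.mono 0 (H κ hκ) ?_⟩
  rintro J - F A H' z hz
  obtain ⟨B, g₀, G, Hc, b1, b2, b3⟩ := H' z hz
  exact ⟨B, g₀, G, Hc, b1, b2, winb_c b3 hη hC⟩

/-- The parameters of the points. -/
def vpA {ι₁ : Type} (k Cf : ℕ) (κ' : ℚ) (pn D' : ℕ) (el : ℚ) (p₁ : ℕ → ι₁) (j : ℕ) :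
    (ℕ × ℕ × ℚ × ℚ) ⊕ (ℕ ⊕ ((AltUI ⊕ Unit) ⊕ ι₁)) :=
  if j = 0 then Sum.inl (k, Cf, 1 / 8, κ')
  else if j = 1 then Sum.inr (Sum.inl pn)
  else if j = 2 then Sum.inr (Sum.inr (Sum.inl (Sum.inl ((range k, D'), el))))
  else if j = 3 then Sum.inr (Sum.inr (Sum.inl (Sum.inr ())))
  else Sum.inr (Sum.inr (Sum.inr (p₁ (j - 4))))

/-- The bounds of the points. -/
def vbA (a b : ℝ) (B : ℕ → ℝ) (j : ℕ) : ℝ :=
  if j = 0 then a else if j < 4 then b else B (j - 4)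

/-- A smaller slack and a larger complexity. -/
theorem zfR_mono {r : ℕ} {Sl : ℕ → ℝ} {b b' : PosR × ℕ} (h1 : (b.1 : ℝ) ≤ b'.1) (h2 : b'.2 ≤ b.2)
    {S : PCl (r + 2)} {P : List (Fin (r + 2)) × Fin (r + 2) → ℝ → ℝ → ℝ} {θ : ℝ}
    {c : ℕ → Fin (r + 2)} {Pt : ℝ → ℝ → ℝ} {rt : ℝ → ℝ} {L T : ℕ → ℝ → ℝ → ℝ} {κ : ℕ → Kg}
    {G : Set ℝ} {g : ℝ} (h : ZfR r Sl b S P θ c Pt rt L T κ G g) :
    ZfR r Sl b' S P θ c Pt rt L T κ G g := by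
  intro i hi hD φ e k₀ he hr
  have := h i hi (hD.trans h2) φ e k₀ he hr
  linarith

theorem mgF_lo {I j : ℕ} {A B : ℕ → ℝ} (h : j < I) : mgF I A B j = A j := by
  unfold mgF
  rw [if_pos h]

theorem mgF_hi {I j : ℕ} {A B : ℕ → ℝ} : mgF I A B (j + I) = B j := by
  unfold mgF
  rw [if_neg (by omega), Nat.add_sub_cancel]

/-- **No record of full rate.** -/
theorem void_ta {k : ℕ} {h lam0 : ℝ} {Sl : ℕ → ℝ} {κ : ℕ → Kg} {ι₁ : Type}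
    {Q₁ : PropG (k + 2) ι₁} (hTA : TaStmt) (hT : TwR k h lam0 Sl κ Q₁ (ZfR k Sl))
    (hk : 1 ≤ k) (hh0 : 0 < h) (hh1 : h ≤ 1) (hSl : ∀ l < k, Sl l = 1)
    (hκ1 : ∀ l < k, κ l = .one) (hκt : κ k = .thin) (hs1 : 1 ≤ Sl (k + 1))
    (hs : Sl (k + 1) < Sl k) (hl0 : 0 < lam0) (hl1 : lam0 ≤ Sl (k + 1) / Sl k) :
    VoidZ (k + 2) h Sl κ (sumQ FaQ (sumQ NlaQ (sumQ (sumQ AltR CuQ) Q₁))) (ZfR k Sl) := by
  classical
  intro al₀ hal₀ K₀ hK₀ S₀ hS₀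
  obtain ⟨s, hse⟩ : ∃ s, s = Sl k := ⟨_, rfl⟩
  obtain ⟨be, hbee⟩ : ∃ be, be = Sl (k + 1) := ⟨_, rfl⟩
  have hs1' : 1 < s := by rw [hse]; linarith
  have hs0 : 0 < s := by linarith
  have hbe1 : 1 ≤ be := by rw [hbee]; exact hs1
  have hbes : be < s := by rw [hse, hbee]; exact hs
  -- the degrees
  obtain ⟨D₁, hD₁, hwb₁⟩ := winbAt_ex (k + 2) k S₀ hk hS₀
  obtain ⟨D₂, hD₂, hwb₂⟩ := winbAt_ex (k + 2) (k + 1) S₀ (by omega) hS₀
  obtain ⟨D₃, hD₃, hful⟩ := fulb_t k S₀ hS₀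
  obtain ⟨D, hD1, hD2, hD3⟩ : ∃ D : ℕ, D₁ ≤ D ∧ D₂ ≤ D ∧ D₃ ≤ D :=
    ⟨max D₁ (max D₂ D₃), le_max_left _ _, (le_max_left _ _).trans (le_max_right _ _),
      (le_max_right _ _).trans (le_max_right _ _)⟩
  have hD : 1 ≤ D := hD₁.trans hD1
  obtain ⟨D', hDD', hT⟩ := hT D S₀ al₀ K₀ hD hS₀ hal₀ hK₀
  obtain ⟨C, hC10, hend⟩ := end_a (k + 2) D D' k 1 hD hDD'
  have hC1 : (10 : ℝ) ≤ C := by exact_mod_cast hC10
  have hC0 : (0 : ℝ) < C := by linarith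
  obtain ⟨Dr, hDr, hDr₀⟩ : ∃ Dr : ℕ, D ≤ Dr ∧ D' ≤ Dr := ⟨D', hDD', le_rfl⟩
  obtain ⟨CB₁, hCB₁, hw₁⟩ := hwb₁ D hD1 Dr hDr
  obtain ⟨CB₂, hCB₂, hw₂⟩ := hwb₂ D hD2 Dr hDr
  obtain ⟨CB, hCBa, hCBb⟩ : ∃ CB : ℝ, CB₁ ≤ CB ∧ CB₂ ≤ CB :=
    ⟨max CB₁ CB₂, le_max_left _ _, le_max_right _ _⟩
  have hw₁' : WinbAt (k + 2) k S₀ D Dr CB := winbAt_mono hw₁ hCBa
  have hw₂' : WinbAt (k + 2) (k + 1) S₀ D Dr CB := winbAt_mono hw₂ hCBb
  have hCB1 : 1 ≤ CB := hCB₁.trans hCBa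
  -- the class theorem
  obtain ⟨ξ, s₁, δ₀, T₀, hξ0, hξ1, hξb, hs₁, hδ₀, hV⟩ := hTA D D' k s be h lam0 hD hDD' hk hbe1
    hbes hh0 hh1 hl0 (by rw [hse, hbee]; exact hl1)
  obtain ⟨τ, K₁, N₁, A₁, V₁, hK₁, hAV₁, hT⟩ := hT ξ δ₀ hξ0 hξ1 (by
    rw [← hse, ← hbee]
    exact hξb) hδ₀
  obtain ⟨κm, β, ζ, z₀, hκm0, hκm, hκm1, hβ, hβκ, hβs, hζ, hz₀, hz₀ζ, hCz₀, hz₀1, hCz⟩ :=
    num_ta (C := C) (s := s) hC1 hs1' hs₁
  -- the windows
  refine ⟨K₁, 1 + N₁, mgF 1 (fun _ => 1) A₁, mgF 1 (fun _ => z₀ / 2) V₁, by linarith,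
    fun j hj => ?_, fun S₂ hS₂ => ?_⟩
  · unfold mgF
    by_cases h1 : j < 1
    · rw [if_pos h1, if_pos h1]
      exact ⟨by linarith, by linarith, by linarith⟩
    · rw [if_neg h1, if_neg h1]
      exact hAV₁ (j - 1) (by omega)
  obtain ⟨lz₁, T₁, hT⟩ := hT S₂ hS₂
  obtain ⟨T, hTa, hTb⟩ : ∃ T : ℝ, T₀ ≤ T ∧ T₁ ≤ T := ⟨max T₀ T₁, le_max_left _ _, le_max_right _ _⟩
  obtain ⟨Λ₁, hΛ₁, hV⟩ := hV T hTa
  obtain ⟨Λ₂, hΛ₂, hT⟩ := hT T hTb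
  obtain ⟨φ₀, hφ₀, hV⟩ := hV z₀ hz₀
  have hV' : TaAt D D' k s be h lam0 s₁ ξ δ₀ T Λ₁ z₀ φ₀ := hV
  clear hV
  obtain ⟨Λ, hΛa, hΛb⟩ : ∃ Λ : ℝ, Λ₁ ≤ Λ ∧ Λ₂ ≤ Λ := ⟨max Λ₁ Λ₂, le_max_left _ _, le_max_right _ _⟩
  have hΛ : 1 ≤ Λ := hΛ₁.trans hΛa
  have hΛ0 : 0 < Λ := by linarith
  -- the errors
  obtain ⟨φL, hφL, hφL1, hφL2, hφL3⟩ : ∃ φL : ℝ, 0 < φL ∧ φL ≤ φ₀ ∧ φL ≤ z₀ / 16 ∧
      φL ≤ 1 / 400 :=
    ⟨min φ₀ (min (z₀ / 16) (1 / 400)), lt_min hφ₀ (lt_min (by positivity) (by norm_num)),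
      min_le_left _ _, (min_le_right _ _).trans (min_le_left _ _),
      (min_le_right _ _).trans (min_le_right _ _)⟩
  obtain ⟨e, he, K₂, N₂, V₂, hV₂, hT⟩ := hT φL hφL
  obtain ⟨em, hem, hem1, hem2⟩ : ∃ em : ℝ, 0 < em ∧ em ≤ φ₀ ∧ em ≤ e :=
    ⟨min φ₀ e, lt_min hφ₀ he, min_le_left _ _, min_le_right _ _⟩
  obtain ⟨φc, hφc, hφc1, hφc2, hφc3⟩ : ∃ φc : ℝ, 0 < φc ∧ φc ≤ φL ∧ φc ≤ e ∧ φc ≤ em / 32 :=
    ⟨min φL (min e (em / 32)), lt_min hφL (lt_min he (by positivity)), min_le_left _ _,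
      (min_le_right _ _).trans (min_le_left _ _), (min_le_right _ _).trans (min_le_right _ _)⟩
  -- the parameter of the rate
  have h16 : 0 < em / (16 * Λ) := by positivity
  obtain ⟨lz, hlz1, hlz2, hlz3, hlz4⟩ : ∃ lz : PosR × ℕ, (lz.1 : ℝ) ≤ lz₁.1 ∧
      (lz.1 : ℝ) ≤ em / (16 * Λ) ∧ lz₁.2 ≤ lz.2 ∧ D' ≤ lz.2 :=
    ⟨(⟨min lz₁.1 (em / (16 * Λ)), lt_min lz₁.1.2 h16⟩, max lz₁.2 D'), min_le_left _ _,
      min_le_right _ _, le_max_left _ _, le_max_right _ _⟩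
  have hlz5 : 16 * Λ * (lz.1 : ℝ) ≤ em := by
    rw [le_div_iff₀ (by positivity)] at hlz2
    linarith
  have hKΛ : 0 < 16 * (K₀ + Λ) := by positivity
  obtain ⟨el, hel0, hel1⟩ : ∃ el : ℚ, (0 : ℝ) < el ∧ (el : ℝ) < em / (16 * (K₀ + Λ)) :=
    exists_rat_btwn (div_pos hem hKΛ)
  have hel0' : 0 < el := by exact_mod_cast hel0
  have hel2 : 16 * (K₀ + Λ) * (el : ℝ) ≤ em := by
    rw [lt_div_iff₀ hKΛ] at hel1
    linarith
  -- the grid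
  obtain ⟨Cf, hCf'⟩ := exists_nat_ge (2 * Λ + 7 * k + 15 + τ)
  have hk0 : (0 : ℝ) ≤ k := Nat.cast_nonneg _
  have hτ0 : (0 : ℝ) ≤ τ := Nat.cast_nonneg _
  have hCf : 2 * Λ + 7 * k + 15 ≤ Cf := by linarith
  obtain ⟨cb, hcb⟩ : ∃ cb : ℕ, cb = Cf + 7 * k + 13 := ⟨_, rfl⟩
  have hcbR : (cb : ℝ) = Cf + 7 * k + 13 := by rw [hcb]; push_cast; ring
  have hcbτ : τ ≤ cb := by
    have h1 : (τ : ℝ) ≤ cb := by linarith
    exact_mod_cast h1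
  obtain ⟨co, hco⟩ := exists_nat_ge (Λ + 1)
  obtain ⟨M₀, hM₀⟩ := exists_nat_ge (3 * (1 + s + be) / φc)
  have hcb0 : (0 : ℝ) ≤ cb := Nat.cast_nonneg _
  have hco0 : (0 : ℝ) ≤ co := Nat.cast_nonneg _
  have hM0 : (0 : ℝ) < M₀ := lt_of_lt_of_le (by positivity) hM₀
  have hM1 : 1 ≤ M₀ := by
    have h2 : 0 < M₀ := by exact_mod_cast hM0
    omega
  have hMφ : 3 * (1 + s + be) / M₀ ≤ φc := by
    rw [div_le_iff₀ hM0]
    rw [div_le_iff₀ hφc] at hM₀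
    linarith
  have hMφ1 : 1 / (M₀ : ℝ) ≤ φc := by
    refine le_trans ?_ hMφ
    exact div_le_div_of_nonneg_right (by linarith) hM0.le
  obtain ⟨G0, hG0⟩ : ∃ G0 : ℕ, G0 = (cb + co) * M₀ + 1 := ⟨_, rfl⟩
  -- the radius
  obtain ⟨K', hK'1, hK'2, hK'3, hK'4⟩ : ∃ K' : ℝ, K₁ ≤ K' ∧ K₂ ≤ K' ∧ K₀ + 1 ≤ K' ∧
      cb + co + Λ + s + be + 10 ≤ K' :=
    ⟨max (max K₁ K₂) (max (K₀ + 1) (cb + co + Λ + s + be + 10)),
      (le_max_left _ _).trans (le_max_left _ _), (le_max_right _ _).trans (le_max_left _ _),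
      (le_max_left _ _).trans (le_max_right _ _), (le_max_right _ _).trans (le_max_right _ _)⟩
  obtain ⟨ε₁, hε₁, hT⟩ := hT K' hK'2
  obtain ⟨ε, hε, hεa, hεb, hεc, hεz, hεβ⟩ : ∃ ε : ℝ, 0 < ε ∧ ε ≤ ε₁ ∧ ε ≤ em / 32 ∧
      4 * ε ≤ φc ∧ 2 * C * ε ≤ z₀ ∧ 16 * ε ≤ β := by
    refine ⟨min (min ε₁ (em / 32)) (min (φc / 4) (min (z₀ / (2 * C)) (β / 16))), ?_, ?_, ?_, ?_,
      ?_, ?_⟩
    · exact lt_min (lt_min hε₁ (by positivity))
        (lt_min (by positivity) (lt_min (by positivity) (by positivity)))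
    · exact (min_le_left _ _).trans (min_le_left _ _)
    · exact (min_le_left _ _).trans (min_le_right _ _)
    · have := (min_le_right (min ε₁ (em / 32)) (min (φc / 4) (min (z₀ / (2 * C)) (β / 16)))).trans
        (min_le_left _ _)
      linarith
    · have := ((min_le_right (min ε₁ (em / 32)) (min (φc / 4) (min (z₀ / (2 * C)) (β / 16)))).trans
        (min_le_right _ _)).trans (min_le_left _ _)
      rw [le_div_iff₀ (by positivity)] at this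
      linarith
    · have := ((min_le_right (min ε₁ (em / 32)) (min (φc / 4) (min (z₀ / (2 * C)) (β / 16)))).trans
        (min_le_right _ _)).trans (min_le_right _ _)
      linarith
  refine ⟨lz, K', G0 + (1 + N₂), mgF G0 (chV M₀ cb) (mgF 1 (fun _ => -(K₀ + 1)) V₂), hK'1,
    fun j hj => ?_, ε, hε, ?_⟩
  · unfold mgF
    by_cases h1 : j < G0
    · rw [if_pos h1]
      have h2 := abs_le.1 (chV_abs (M₀ := M₀) (cb := cb) (co := co) (k := j) hM1 (by omega))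
      constructor <;> linarith [h2.1, h2.2]
    · rw [if_neg h1]
      by_cases h2 : j - G0 < 1
      · rw [if_pos h2]
        constructor <;> linarith
      · rw [if_neg h2]
        obtain ⟨g1, g2⟩ := hV₂ (j - G0 - 1) (by omega)
        exact ⟨by linarith, by linarith⟩
  intro S g₀ P θ P₂ θ₂ Eb e₂ c Pt rt L Tb G g hG hgG hder hZl
  obtain ⟨p₁, M₁, B₀, B₁, hBB, hT⟩ := hT ε hε hεa S g₀ P θ P₂ θ₂ Eb e₂ c Pt rt L Tb G g hG hgG hder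
    (zfR_mono hlz1 hlz3 hZl)
  obtain ⟨κ', hκ'0, hκ'1⟩ : ∃ κ' : ℚ, (0 : ℝ) < κ' ∧ (κ' : ℝ) < em := exists_rat_btwn hem
  obtain ⟨pn, hpn⟩ := exists_nat_ge ((Λ + 2) / em)
  have hpn' : Λ + 2 ≤ em * (pn + 1) := by
    rw [div_le_iff₀ hem] at hpn
    linarith
  refine ⟨vpA k Cf κ' pn D' el p₁, M₁ + 4, vbA (-(Cf + (7 * k + 12) / 2 - Λ)) (-1) B₀,
    vbA (-(Cf / 2 + 7 * k + 13)) 0 B₁, fun j hj => ?_, fun k₀ hQg => ?_⟩
  · unfold vbA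
    by_cases h1 : j = 0
    · rw [if_pos h1, if_pos h1]
      linarith
    · rw [if_neg h1, if_neg h1]
      by_cases h2 : j < 4
      · rw [if_pos h2, if_pos h2]
        norm_num
      · rw [if_neg h2, if_neg h2]
        exact hBB _ (by omega)
  have hp1 : ∀ j, vpA k Cf κ' pn D' el p₁ (j + 4) = Sum.inr (Sum.inr (Sum.inr (p₁ j))) :=
    fun j => by
      unfold vpA
      rw [if_neg (by omega), if_neg (by omega), if_neg (by omega), if_neg (by omega),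
        Nat.add_sub_cancel]
  have hb1 : ∀ (a b : ℝ) (B : ℕ → ℝ) (j : ℕ), vbA a b B (j + 4) = B j :=
    fun a b B j => by
      unfold vbA
      rw [if_neg (by omega), if_neg (by omega), Nat.add_sub_cancel]
  have hAg : AltR ((range k, D'), el) (k₀ 2) S P θ c Pt rt L Tb κ G g := by
    have h1 := hQg 2 (by omega)
    have e1 : vpA k Cf κ' pn D' el p₁ 2 =
        Sum.inr (Sum.inr (Sum.inl (Sum.inl ((range k, D'), el)))) := by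
      unfold vpA
      rw [if_neg (by omega), if_neg (by omega), if_pos rfl]
    rw [e1] at h1
    exact h1
  have hCg : CuQ () (k₀ 3) S P θ c Pt rt L Tb κ G g := by
    have h1 := hQg 3 (by omega)
    have e1 : vpA k Cf κ' pn D' el p₁ 3 = Sum.inr (Sum.inr (Sum.inl (Sum.inr ()))) := by
      unfold vpA
      rw [if_neg (by omega), if_neg (by omega), if_neg (by omega), if_pos rfl]
    rw [e1] at h1
    exact h1
  obtain ⟨e₀, ρ₀, π₀, he₀, hρ₀, hAC, hful⟩ := hful (hD3.trans hDD') hK₀ hΛ hem (b := lz) (el := el)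
    hlz4 hlz5 hel0' hel2 hgG hAg hCg hZl
  obtain ⟨μ, hμe⟩ : ∃ μ : ℝ, μ = (1 / 2) ^ k₀ 2 := ⟨_, rfl⟩
  rw [← hμe] at hρ₀ hAC
  have hμ0 : 0 < μ := by rw [hμe]; positivity
  obtain ⟨q₁, hq₁, hT⟩ := hT (fun j => k₀ (j + 4)) fun j hj => by
    have h1 := hQg (j + 4) (by omega)
    rw [hp1] at h1
    exact h1
  obtain ⟨mk, hmk, hmk'⟩ := nat_pos (d := fun j => (1 / 2 : ℝ) ^ k₀ j) 2 (fun j _ => by positivity)
  have hcc2 : 0 < cb + co + 2 * Λ + 2 * K₀ + 2 := by linarith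
  refine ⟨min q₁ (mk / (cb + co + 2 * Λ + 2 * K₀ + 2)), lt_min hq₁ (by positivity), ?_⟩
  intro q t x hq hx R
  have hq0 := R.q0
  have hqt : q < q₁ := hq.trans_le (min_le_left _ _)
  have hqm : (cb + co + 2 * Λ + 2 * K₀ + 2) * q < mk := by
    have h1 := hq.trans_le (min_le_right _ _)
    rw [lt_div_iff₀ hcc2] at h1
    linarith
  have hqk : ∀ j ≤ 2, (cb + co + 2 * Λ + 2 * K₀ + 2) * q < (1 / 2) ^ k₀ j := fun j hj =>
    hqm.trans_le (hmk' j hj)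
  have hcbq : 0 ≤ cb * q := by positivity
  have hcoq : 0 ≤ co * q := by positivity
  have hK₀q : 0 ≤ K₀ * q := by positivity
  have hΛq : q ≤ Λ * q := le_mul_of_one_le_left hq0.le hΛ
  have hexp : (cb + co + 2 * Λ + 2 * K₀ + 2) * q = cb * q + co * q + 2 * (Λ * q) +
    2 * (K₀ * q) + 2 * q := by ring
  rw [hexp] at hqk
  have hqμ : cb * q + co * q + 2 * (Λ * q) + 2 * (K₀ * q) + 2 * q < μ := by
    rw [hμe]
    exact hqk 2 le_rfl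
  -- the points
  have hFa : FaQ (k, Cf, (1 / 8 : ℚ), κ') (k₀ 0) S P θ c Pt rt L Tb κ G (x 0) := by
    obtain ⟨-, -, -, hQ0⟩ := hx 0 (by omega)
    have e1 : vpA k Cf κ' pn D' el p₁ 0 = Sum.inl (k, Cf, 1 / 8, κ') := by
      unfold vpA
      rw [if_pos rfl]
    rw [e1] at hQ0
    exact hQ0
  have hFx : t - (Cf + (7 * k + 12) / 2 - Λ) * q ≤ x 0 ∧ x 0 ≤ t - (Cf / 2 + 7 * k + 13) * q := by
    obtain ⟨-, h1, h2, -⟩ := hx 0 (by omega)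
    unfold vbA at h1 h2
    rw [if_pos rfl] at h1 h2
    exact ⟨by linarith, by linarith⟩
  have hNl : NlaQ pn (k₀ 1) S P θ c Pt rt L Tb κ G (x 1) := by
    obtain ⟨-, -, -, hQ0⟩ := hx 1 (by omega)
    have e1 : vpA k Cf κ' pn D' el p₁ 1 = Sum.inr (Sum.inl pn) := by
      unfold vpA
      rw [if_neg (by omega), if_pos rfl]
    rw [e1] at hQ0
    exact hQ0
  have hNx : t - q ≤ x 1 ∧ x 1 ≤ t := by
    obtain ⟨-, h1, h2, -⟩ := hx 1 (by omega)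
    unfold vbA at h1 h2
    rw [if_neg (by omega), if_pos (by omega)] at h1 h2
    exact ⟨by linarith, by linarith⟩
  -- the record of the grid
  have hgr : ∀ j < G0, ∃ i < G0 + (1 + N₂), chV M₀ cb j =
      mgF G0 (chV M₀ cb) (mgF 1 (fun _ => -(K₀ + 1)) V₂) i := fun j hj =>
    ⟨j, by omega, (mgF_lo hj).symm⟩
  have RG := R.mono (N₁' := G0) (V₁' := chV M₀ cb) le_rfl le_rfl
    (fun j hj => ⟨j, hj, rfl, rfl⟩) hgr
  have hGr : ∀ j < (cb + co) * M₀ + 1, grV M₀ cb t q j ∈ G := fun j hj =>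
    RG.memG.2 j (by omega)
  have hVK' : ∀ j < (cb + co) * M₀ + 1, |chV M₀ cb j| ≤ cb + co := fun j hj =>
    chV_abs (M₀ := M₀) (cb := cb) (co := co) (k := j) hM1 hj
  have hgK := abs_le.1 R.near
  have hcoM : cb * M₀ < (cb + co) * M₀ + 1 := by
    have : cb * M₀ ≤ (cb + co) * M₀ := Nat.mul_le_mul_right _ (by omega)
    omega
  have htG : t ∈ G := by
    have h1 := hGr (cb * M₀) hcoM
    rwa [grV_mid hM1] at h1
  have hnear : ∀ v ∈ G, |v - t| ≤ (cb + co) * q → AltC S c k L e₀ ρ₀ π₀ μ v := by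
    intro v hv h1
    have h2 := abs_le.1 h1
    have e1 : (cb + co) * q = cb * q + co * q := by ring
    rw [e1] at h2
    refine hAC v hv ?_
    rw [abs_le]
    constructor <;> linarith [h2.1, h2.2, hgK.1, hgK.2]
  have hatt : ∀ j < (cb + co) * M₀ + 1, ∃ rk E : ℝ, 0 ≤ rk ∧ rk < 1 ∧ 0 ≤ E ∧
      E + L (k + 1) (grV M₀ cb t q j) (grV M₀ cb t q j) + Λ * q ≤ 1 ∧
      LbU S ((range (k + 1)).image c) (c (k + 1)) (grV M₀ cb t q j)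
        (L (k + 1) (grV M₀ cb t q j) (grV M₀ cb t q j)) rk E := by
    intro j hj
    obtain ⟨rk, E, a1, a2, a3, a4, a5, a6, a7, a8, a9, a10⟩ := hnear _ (hGr j hj) (by
      show |t + chV M₀ cb j * q - t| ≤ _
      rw [add_sub_cancel_left, abs_mul, abs_of_pos hq0]
      exact mul_le_mul_of_nonneg_right (hVK' j hj) hq0.le)
    exact ⟨rk, E, a1, by linarith, a3, by linarith, a10⟩
  -- the boxes
  have hbox : ∀ (S₃ : PCl (k + 2)), S₃.Ne →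
      (∀ (τ : ℝ) (J : ℕ) (F : Fam (k + 2) J) (A : F.Ω → Prop), S₃.St τ J F A → S.St τ J F A) →
      ∀ Λ' φ : ℝ, 1 ≤ Λ' → Λ' ≤ Λ → φc ≤ φ → φ ≤ 1 / 400 →
      ∃ sp : ℕ → ℝ → ℝ, XBox S₃ c k (fun l v => L l v v) sp (grS M₀ cb co t q) (Sl k)
        (Sl (k + 1)) h (t - cb * q) (t + co * q) t q Λ' (φ * q) em (lh (L (k + 1)) G) := by
    intro S₃ hne hs₃ Λ' φ a1 a2 a3 a4
    have hφq : φc * q ≤ φ * q := mul_le_mul_of_nonneg_right a3 hq0.le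
    have hφ4 := mul_le_mul_of_nonneg_right a4 hq0.le
    have hΛΛ : Λ' * q ≤ Λ * q := mul_le_mul_of_nonneg_right a2 hq0.le
    refine rec_xbox (RG.sub hne hs₃) (Cf := Cf) (pn := pn) (kf := k₀ 0) (kn := k₀ 1) (κ' := κ')
      (x₀ := x 0) (x₁ := x 1) hM1 hq0 a1 hGr ?_ hε hSl hκ1 hs1 hs.le hem ?_ ?_ (by linarith)
      (by linarith) hcb (by linarith) hκ'0 hκ'1.le (by linarith) (fun j hj => ?_) (hFa.sub hs₃)
      ?_ hFx.2 ?_ (her_nla (k + 2) pn _ S S₃ P θ c Pt rt L Tb κ G _ hs₃ hNl) (by linarith [hNx.1])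
      hNx.2 ?_
    · rw [sub_self, abs_zero, mul_zero, zero_add]
      exact mul_le_mul_of_nonneg_right (by linarith) hq0.le
    · have h5 := mul_le_mul_of_nonneg_right hεc hq0.le
      linarith
    · have h5 := mul_le_mul_of_nonneg_right hMφ hq0.le
      have h6 : 3 * ((1 + Sl k + Sl (k + 1)) * (q / M₀)) = 3 * (1 + s + be) / M₀ * q := by
        rw [hse, hbee]
        ring
      rw [h6]
      linarith
    · obtain ⟨rk, E, b1, b2, b3, b4, b5⟩ := hatt j hj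
      exact ⟨rk, E, b1, b2, b3, by linarith, b5.sub hs₃⟩
    · have e1 : (Cf + (7 * k + 12) / 2 - Λ) * q = (Cf + (7 * k + 12) / 2) * q - Λ * q := by ring
      have e2 : (Cf + (7 * k + 12) / 2 - Λ') * q = (Cf + (7 * k + 12) / 2) * q - Λ' * q := by ring
      have h5 := hFx.1
      rw [e1] at h5
      rw [e2]
      linarith
    · have h5 := hqk 0 (by omega)
      linarith
    · have h5 := hqk 1 (by omega)
      have e1 : (Λ' + 2) * q = Λ' * q + 2 * q := by ring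
      rw [e1]
      linarith
  obtain ⟨sp₀, hsp₀⟩ := hbox S R.ne (fun _ _ _ _ h => h) Λ φc hΛ le_rfl le_rfl
    (hφc1.trans hφL3)
  -- the full rate
  have hΛco : Λ * q ≤ co * q := mul_le_mul_of_nonneg_right (by linarith) hq0.le
  have hfulB : FulB S c k (Sl (k + 1)) t q Λ em (lh (L (k + 1)) G) D' e₀ ρ₀
      (L (k + 1) t t - φL * q) := by
    refine hful R ⟨G0, by omega, ?_⟩ hK'3 (by linarith) ?_ htG (by linarith) fun v h1 h2 => ?_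
    · have h1 := mgF_hi (I := G0) (j := 0) (A := chV M₀ cb)
        (B := mgF 1 (fun _ => -(K₀ + 1)) V₂)
      rw [Nat.zero_add] at h1
      rw [h1, mgF_lo (by omega)]
    · rw [← hμe]
      have e1 : (2 * K₀ + 2 * Λ + 1) * q = 2 * (K₀ * q) + 2 * (Λ * q) + q := by ring
      rw [e1]
      linarith
    · have h3 := abs_le.1 (hsp₀.lamt v (by linarith) (by linarith))
      have h4 := abs_le.1 (R.dL (k + 1) (by omega) v (by
        rw [abs_of_nonneg (by linarith)]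
        have h5 := mul_le_mul_of_nonneg_right (show Λ ≤ K' by linarith) hq0.le
        linarith))
      have h5 := mul_le_mul_of_nonneg_right hφc3 hq0.le
      have h6 := mul_le_mul_of_nonneg_right hεb hq0.le
      have e1 : em / 32 * q + em / 32 * q = em / 16 * q := by ring
      rw [abs_le]
      constructor <;> linarith [h3.1, h3.2, h4.1, h4.2]
  -- the tie
  obtain ⟨rk, E, b1, b2, b3, b4, b5, b6, b7, b8, b9, b10⟩ := hnear t htG (by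
    rw [sub_self, abs_zero]
    positivity)
  obtain ⟨rd, -, hchn⟩ := hCg t htG
  obtain ⟨S₃, hne₃, hs₃, htie⟩ := hT (x := fun j => x (j + 4)) (M₀ := M₀) (cb := cb) (co := co)
    (Λ := Λ) (e' := em) (φ' := φc) hqt (fun j hj => by
    obtain ⟨y1, y2, y3, y4⟩ := hx (j + 4) (by omega)
    rw [hb1] at y2 y3
    rw [hp1] at y4
    exact ⟨y1, y2, y3, y4⟩) R (fun i hi => ⟨i + 1, by omega, mgF_hi, mgF_hi⟩)
    (fun i hi => ⟨i + 1 + G0, by omega, by rw [mgF_hi, mgF_hi]⟩) hM1 hcbτ hΛb hem.le hem2 hφc2 hsp₀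
    hchn.wu1 (hchn.pre (k + 1) (Nat.zero_le _) le_rfl) e₀ ρ₀ he₀ ⟨rk, E, b1, by linarith, b3,
      by linarith, b10⟩ (by linarith) (by linarith) (by linarith) (by linarith) hfulB
  -- the end
  obtain ⟨sp₁, hsp₁⟩ := hbox S₃ hne₃ hs₃ Λ₁ φL hΛ₁ hΛa hφc1 hφL3
  have hV'' : TaAt D D' k (Sl k) (Sl (k + 1)) h lam0 s₁ ξ δ₀ T Λ₁ z₀ φ₀ := by
    rw [← hse, ← hbee]
    exact hV'
  exact core_ta hend hC10 hk hDr hDr₀ hCB1 hw₁' hw₂' hΛ₁ hκm hκm1 hβ hβκ hz₀ hz₀ζ hCz₀ hz₀1 hCz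
    hφL hφL1 (by linarith) hφc hφc1 hem.le hem1 (RG.sub hne₃ hs₃) hV'' (by rw [← hse]; exact hβs)
    (by rw [← hse]; exact hζ) hM1 (by linarith) (by linarith) hcbτ hG0 (fun _ _ => rfl)
    (by rw [← hse]; linarith) (by linarith) hε hεc hεz hεβ hMφ1 hSl hs1 hs hl0 hl1 hκt
    ⟨0, by omega, by rw [mgF_lo (by omega)], by rw [mgF_lo (by omega)]⟩ hsp₁
    (fulB_mono (fulB_sub hs₃ hfulB) hq0.le hΛa le_rfl) htie

end Pool.VTA72
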